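import Pool.Agent.Q23.FV.M3

/-!
Blocks of lamps with a prescribed length and with a mark: the solution space at the number `z` is
not zero only if `z` is a natural number in the set `S`.
-/

set_option autoImplicit false

open scoped InnerProductSpace ENNReal ComplexConjugate
open Filter Topology

namespace Q23.JS

open Pool.Agent.W656.VA
open Pool.Agent.H80R2
open Pool.Agent.H80R2.BC (L2 GMat vdim IsTr LInv Equi act kerA Coef)
open Pool.Agent.H812R3
open Pool.Agent.TH25.AD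
open Q23.FV

section sel

variable {H ι κ κ' : Type} [Group H] [Fintype ι] [Fintype κ] [Fintype κ']

open Classical in
/-- selection of components -/
noncomputable def sel (H : Type) [Group H] (e : κ → ι) : GMat κ ι H :=
  fun k i => if i = e k then Finsupp.single 1 1 else 0

theorem cj_sel (e : κ → ι) (k : κ) (x : L2 (ι × H)) :
    cj k (op (sel H e) x) = cj (e k) x := by
  classical
  rw [cj_op, Finset.sum_eq_single (e k)]
  · unfold sel
    rw [if_pos rfl, Finsupp.sum_single_index (by rw [zero_smul]), one_smul, U_one]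
  · intro i _ hi
    unfold sel
    rw [if_neg hi, Finsupp.sum_zero_index]
  · intro h
    exact absurd (Finset.mem_univ _) h

theorem coef_sel {R : Subring ℂ} (e : κ → ι) : Coef R (sel H e) := by
  intro k i h
  unfold sel
  split_ifs
  · exact coef_single _ _ R.one_mem _
  · exact R.zero_mem

theorem DfnP.comap {R : Subring ℂ} {E : ℂ → Submodule ℂ (L2 (κ' × H))} {d : ℝ}
    (h : DfnP R E d) {X : GMat κ' ι H} (hX : Coef R X) :
    DfnP R (fun z => (E z).comap (op X : L2 (ι × H) →ₗ[ℂ] L2 (κ' × H))) d := by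
  obtain ⟨κ, ν, _, _, B0, B1, C, hB0, hB1, hC, rfl, hE⟩ := h
  refine ⟨κ, ν, inferInstance, inferInstance, mulM B0 X, mulM B1 X, C, coef_mulM hB0 hX,
    coef_mulM hB1 hX, hC, rfl, ?_⟩
  intro z x
  rw [op_pen, op_mulM, op_mulM, ← op_pen]
  exact hE z (op X x)

end sel

variable {H : Type} [Group H] (M : Mach H)

/-- the selection of the components of the first system -/
def e1 : Fin 2 → Fin 5 := ![0, 1]

/-- the selection of the components of the second system -/
def e2 : Fin 4 → Fin 5 := ![0, 2, 3, 4]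

/-- both systems, with a common first component -/
noncomputable def Cb (z : ℂ) : Submodule ℂ (L2 (Fin 5 × H)) :=
  (Sl M z).comap (op (sel H e1) : L2 (Fin 5 × H) →ₗ[ℂ] L2 (Fin 2 × H)) ⊓
    (M.Sol).comap (op (sel H e2) : L2 (Fin 5 × H) →ₗ[ℂ] L2 (Fin 4 × H))

theorem mem_Cb (z : ℂ) (x : L2 (Fin 5 × H)) :
    x ∈ Cb M z ↔ op (sel H e1) x ∈ Sl M z ∧ op (sel H e2) x ∈ M.Sol := Iff.rfl

theorem closed_Cb (z : ℂ) : IsClosed (Cb M z : Set (L2 (Fin 5 × H))) := by
  unfold Cb
  refine isClosed_inf ?_ ?_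
  · exact (closed_Sl M z).preimage (op (sel H e1)).continuous
  · exact M.closed_Sol.preimage (op (sel H e2)).continuous

theorem linv_Cb (z : ℂ) : LInv (Cb M z) := by
  apply linv_of
  intro g x hx
  rw [mem_Cb] at hx ⊢
  rw [equi_lt (equi_op _), equi_lt (equi_op _)]
  exact ⟨linv_lt (linv_Sl M z) g hx.1, linv_lt M.linv_Sol g hx.2⟩

/-- the value at the left end of the block -/
noncomputable def TC : L2 (Fin 5 × H) →L[ℂ] L2 (Unit × H) :=
  ((M.lam (-1))ᗮ.starProjection).comp (cj 0)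

theorem TC_apply (x : L2 (Fin 5 × H)) :
    TC M x = (M.lam (-1))ᗮ.starProjection (cj 0 x) := rfl

theorem equi_TC : Equi (TC M) :=
  equi_comp (equi_proj (linv_orth (M.loc_lam (-1)).linv)) (equi_cj 0)

theorem TC_mem (x : L2 (Fin 5 × H)) : TC M x ∈ (M.lam (-1))ᗮ :=
  Submodule.starProjection_apply_mem _ _

theorem inner_TC {u : L2 (Unit × H)} (hu : u ∈ (M.lam (-1))ᗮ) (x : L2 (Fin 5 × H)) :
    ⟪u, TC M x⟫_ℂ = ⟪u, cj 0 x⟫_ℂ := by
  rw [TC_apply, ← Submodule.inner_starProjection_left_eq_right,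
    Submodule.starProjection_eq_self_iff.2 hu]

theorem cj1_zero (x : L2 (Fin 5 × H)) : cj 0 (op (sel H e1) x) = cj 0 x := cj_sel e1 0 x

theorem cj2_zero (x : L2 (Fin 5 × H)) : cj 0 (op (sel H e2) x) = cj 0 x := cj_sel e2 0 x

theorem TC_inj (hα : M.α < 1) {z : ℂ} (x : L2 (Fin 5 × H)) (hx : x ∈ Cb M z)
    (h : TC M x = 0) : x = 0 := by
  obtain ⟨h1, h2⟩ := (mem_Cb M z x).1 hx
  have c1 : op (sel H e1) x = 0 := by
    apply TT_inj M hα _ h1
    rw [TT_apply, cj1_zero]
    exact h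
  have c2 : op (sel H e2) x = 0 := by
    apply M.T_inj hα _ h2
    rw [M.T_apply, cj2_zero]
    exact h
  have d1 : ∀ k : Fin 2, cj (e1 k) x = 0 := fun k => by rw [← cj_sel, c1, map_zero]
  have d2 : ∀ k : Fin 4, cj (e2 k) x = 0 := fun k => by rw [← cj_sel, c2, map_zero]
  apply ext_cj
  intro i
  rw [map_zero]
  fin_cases i
  · exact d1 0
  · exact d1 1
  · exact d2 1
  · exact d2 2
  · exact d2 3

/-- the solution with a given value at the left end of a marked block of length `n` -/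
theorem good_Cb {n : ℕ} (hc : M.gn n * M.h = M.h * M.gn n) {x : L2 (Unit × H)}
    (hx : x ∈ M.Q n) : ∃ y ∈ Cb M (n : ℂ), TC M y = x := by
  set x1 := U M.h x with hx1
  set x2 := U (M.gn n) x with hx2
  set x3 := U M.h x2 with hx3
  have h1 : x1 ∈ M.Q n := M.Q_U M.hc hx
  have h2 : x2 ∈ M.Q n := M.Q_U (M.gn_comm n) hx
  have h3 : x3 ∈ M.Q n := M.Q_U M.hc h2
  have h31 : x3 = U (M.gn n) x1 := by
    rw [hx3, hx2, hx1, ← U_mul, ← U_mul, hc]
  set v : Fin 5 → L2 (Unit × H) := ![M.blk n x, ub M n x, M.blk n x1, M.blk n x2, M.blk n x3]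
    with hv
  set y : L2 (Fin 5 × H) := Pool.Agent.TH25.AD.mk (ι := Fin 5) v with hy
  have k1 : ∀ k : Fin 2, cj k (op (sel H e1) y) = v (e1 k) := fun k => by
    rw [cj_sel, hy, cj_mk]
  have k2 : ∀ k : Fin 4, cj k (op (sel H e2) y) = v (e2 k) := fun k => by
    rw [cj_sel, hy, cj_mk]
  refine ⟨y, ?_, ?_⟩
  · rw [mem_Cb]
    constructor
    · rw [mem_Sl, k1 0, k1 1]
      exact ⟨⟨(M.mem_Z _).1 (M.blk_mem_Z hx), ub_step M hx⟩, ub_left M hx, ub_right M hx⟩
    · rw [M.mem_Sol, k2 0, k2 1, k2 2, k2 3]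
      refine ⟨?_, ⟨?_, ?_⟩, ?_, ?_⟩
      · intro i
        rw [k2]
        fin_cases i
        · exact M.blk_mem_Z hx
        · exact M.blk_mem_Z h1
        · exact M.blk_mem_Z h2
        · exact M.blk_mem_Z h3
      · exact M.blk_right hx h2 hx2
      · exact M.blk_right h1 h3 h31
      · exact M.blk_left hx h1 hx1
      · exact M.blk_left h2 h3 hx3
  · rw [TC_apply, hy, cj_mk]
    symm
    apply Eq.symm
    apply Submodule.eq_starProjection_of_mem_orthogonal (M.Q_left hx)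
    rw [Submodule.orthogonal_orthogonal]
    exact M.blk_sub hx

theorem sumQ (N : ℕ) : ∑ n ∈ Finset.range N, vdim (M.Q n) = (1 - M.α) * (1 - M.α ^ N) := by
  induction N with
  | zero => simp
  | succ N ih =>
    rw [Finset.sum_range_succ, ih, M.vdim_Q, pow_succ]
    ring

/-- the dimension if all blocks but one do not contribute -/
theorem vdim_one (hα : M.α < 1) (z : ℂ) (I : Set ℕ) (hI : ∀ a ∈ I, ∀ b ∈ I, a = b)
    (hlo : ∀ n ∈ I, ∀ x ∈ M.Q n, ∃ y ∈ Cb M z, TC M y = x)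
    (hup : ∀ n, n ∉ I → ∀ x ∈ Cb M z, ∀ u ∈ M.Q n, ⟪u, cj 0 x⟫_ℂ = 0) :
    (∀ k ∈ I, vdim (Cb M z) = (1 - M.α) ^ 2 * M.α ^ k) ∧ (I = ∅ → vdim (Cb M z) = 0) := by
  classical
  set L := ((Cb M z).map
    (TC M : L2 (Fin 5 × H) →ₗ[ℂ] L2 (Unit × H))).topologicalClosure with hL
  have hLc : IsClosed (L : Set (L2 (Unit × H))) := Submodule.isClosed_topologicalClosure _
  have hv : vdim (Cb M z) = vdim L := by
    rw [vdim_rank (closed_Cb M _) (linv_Cb M _) (TC M) (equi_TC M)]
    have h3 : Cb M z ⊓ kr (TC M) = ⊥ := by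
      rw [eq_bot_iff]
      rintro x ⟨hx, hx2⟩
      exact TC_inj M hα x hx ((mem_kr _ _).1 hx2)
    rw [h3, vdim_bot, zero_add]
  have hlo' : ∀ n ∈ I, M.Q n ≤ L := by
    intro n hn x hx
    obtain ⟨y, hy, rfl⟩ := hlo n hn x hx
    exact Submodule.le_topologicalClosure _ ⟨y, hy, rfl⟩
  have hup' : ∀ n, n ∉ I → M.Q n ≤ Lᗮ := by
    intro n hn u hu
    rw [hL, Submodule.orthogonal_closure, Submodule.mem_orthogonal']
    rintro _ ⟨y, hy, rfl⟩
    show ⟪u, TC M y⟫_ℂ = 0
    rw [inner_TC M (M.Q_left hu)]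
    exact hup n hn y hy u hu
  have hLl : L ≤ (M.lam (-1))ᗮ := by
    apply Submodule.topologicalClosure_minimal _ _ (isClosed_orth _)
    rintro _ ⟨y, _, rfl⟩
    exact TC_mem M y
  have hQl : ∀ n, M.Q n ≤ (M.lam (-1))ᗮ := fun n u hu => M.Q_left hu
  have b2 : ∀ N : ℕ, ∑ n ∈ (Finset.range N).filter (fun n => n ∉ I), vdim (M.Q n)
      ≤ (1 - M.α) - vdim L := by
    intro N
    have h4 : vdim ((M.lam (-1))ᗮ ⊓ Lᗮ) = (1 - M.α) - vdim L := by
      rw [vdim_diff hLc (isClosed_orth _) hLl, vdim_orth, M.vdim_lam]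
      simp
    rw [← h4]
    refine bessel _ _ (fun n _ => M.closed_Q n) (fun i _ j _ hij => M.Q_orth hij) _
      (isClosed_inf (isClosed_orth _) (isClosed_orth _)) ?_
    intro n hn
    exact le_inf (hQl n) (hup' n (Finset.mem_filter.1 hn).2)
  have hpow := tendsto_pow_atTop_nhds_zero_of_lt_one M.α_nonneg hα
  constructor
  · intro k hk
    rw [hv, ← M.vdim_Q k]
    apply le_antisymm
    · have hlim : Tendsto (fun N : ℕ => vdim (M.Q k) + (1 - M.α) * M.α ^ N) atTop
          (𝓝 (vdim (M.Q k))) := by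
        have := hpow.const_mul (1 - M.α)
        rw [mul_zero] at this
        have := (tendsto_const_nhds (x := vdim (M.Q k))).add this
        rwa [add_zero] at this
      refine ge_of_tendsto hlim ?_
      filter_upwards [eventually_gt_atTop k] with N hN
      have h5 := Finset.add_sum_erase (Finset.range N) (fun n => vdim (M.Q n))
        (Finset.mem_range.2 hN)
      have h6 : (Finset.range N).erase k = (Finset.range N).filter (fun n => n ∉ I) := by
        ext n
        rw [Finset.mem_erase, Finset.mem_filter]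
        constructor
        · rintro ⟨a, b⟩
          exact ⟨b, fun h => a (hI n h k hk)⟩
        · rintro ⟨a, b⟩
          exact ⟨fun h => b (by rw [h]; exact hk), a⟩
      rw [sumQ, h6] at h5
      have h7 := b2 N
      nlinarith
    · exact vdim_mono (hlo' k hk)
  · intro hI0
    rw [hv]
    apply le_antisymm _ (vdim_nonneg _)
    have hlim : Tendsto (fun N : ℕ => (1 - M.α) * M.α ^ N) atTop (𝓝 0) := by
      have := hpow.const_mul (1 - M.α)
      rwa [mul_zero] at this
    refine ge_of_tendsto' hlim fun N => ?_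
    have h6 : (Finset.range N).filter (fun n => n ∉ I) = Finset.range N := by
      apply Finset.filter_true_of_mem
      intro n _
      rw [hI0]
      exact Set.notMem_empty n
    have h7 := b2 N
    rw [h6, sumQ] at h7
    nlinarith

/-- **The dimension of the solution space.** -/
theorem vdim_Cb (hα : M.α < 1) (S : Set ℕ)
    (h1 : ∀ n ∈ S, M.gn n * M.h = M.h * M.gn n)
    (h2 : ∀ n : ℕ, n ∉ S → ∀ k : ℕ, 0 < k → ((M.h * M.gn n)⁻¹ * (M.gn n * M.h)) ^ k ≠ 1)
    (z : ℂ) : (∀ k ∈ S, (k : ℂ) = z → vdim (Cb M z) = (1 - M.α) ^ 2 * M.α ^ k) ∧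
      ((¬ ∃ k ∈ S, (k : ℂ) = z) → vdim (Cb M z) = 0) := by
  have h3 := vdim_one M hα z {n | n ∈ S ∧ (n : ℂ) = z}
    (by
      rintro a ⟨_, ha⟩ b ⟨_, hb⟩
      exact_mod_cast ha.trans hb.symm)
    (by
      rintro n ⟨hn, rfl⟩ x hx
      exact good_Cb M (h1 n hn) hx)
    (by
      intro n hn x hx u hu
      obtain ⟨k1, k2⟩ := (mem_Cb M z x).1 hx
      by_cases hS : n ∈ S
      · rw [← cj1_zero]
        exact bad M k1 (fun h => hn ⟨hS, h⟩) hu
      · rw [← cj2_zero]
        exact M.bad_block (h2 n hS) k2 hu)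
  refine ⟨fun k hk hkz => h3.1 k ⟨hk, hkz⟩, fun hno => h3.2 ?_⟩
  ext n
  simp only [Set.mem_setOf_eq, Set.mem_empty_iff_false, iff_false]
  rintro ⟨a, b⟩
  exact hno ⟨n, a, b⟩

theorem dfn_Cb {R : Subring ℂ} {d : ℝ} (hP : Dfn R M.P 0) (hN : Dfn R M.Pᗮ d) :
    DfnP R (fun z => Cb M z) (6 * d) := by
  have h1 := DfnP.comap (dfn_Sl M hP hN) (coef_sel (H := H) e1)
  have h2 := DfnP.const (M.dfn_Sol hP hN) (coef_sel (H := H) e2)
  have h3 := h1.inf h2
  have e : 2 * d + 4 * d = 6 * d := by ring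
  rw [e] at h3
  exact h3

end Q23.JS
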