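import Pool.Agent.Q23.JS.J1
import Pool.Agent.Q23.AS.N3

/-!
Pencils of integral matrices with a prescribed set of jumps; the number of the jumps of a pencil
with integral kernel dimensions.
-/

set_option autoImplicit false

open scoped InnerProductSpace ENNReal ComplexConjugate
open Filter Topology

namespace Q23.JS

open Pool.Agent.W656.VA
open Pool.Agent.H80R2
open Pool.Agent.H80R2.BC (L2 GMat vdim IsTr LInv Equi act kerA Coef)
open Pool.Agent.H812R3
open Pool.Agent.TH25.AD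
open Q23.FV

theorem pow_ne {G : Type} [Group G] {a b : Hg G} (ha : a.n = 0) (hb : b.n = 0)
    (h : (a.k 0).2 ≠ (b.k 0).2) (k : ℕ) (hk : 0 < k) : (b⁻¹ * a) ^ k ≠ 1 := by
  intro hc
  have h1 : (b⁻¹ * a).n = 0 := by
    rw [Wr.mul_n, Wr.inv_n, ha, hb]
    simp
  have h2 := Wr.pow_k (b⁻¹ * a) h1 k 0
  rw [hc, Wr.one_k, Wr.mul_k, Wr.inv_k, Wr.inv_n, hb, neg_zero, sub_zero, add_zero] at h2
  have h3 : ((b.k 0).2⁻¹ * (a.k 0).2) ^ k = 1 := (congrArg Prod.snd h2).symm
  have h4 := Wr.tf tf_int _ k hk h3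
  exact h (inv_mul_eq_one.1 h4).symm

theorem mach_bad' {G : Type} [Group G] (S : Set ℕ) (P : Submodule ℂ (L2 (Unit × Hg G)))
    (hP : IsClosed (P : Set (L2 (Unit × Hg G)))) (hloc : Loc (DIg G {0}) P) (n : ℕ)
    (hn : n ∉ S) (k : ℕ) (hk : 0 < k) :
    (((mach G S P hP hloc).h * (mach G S P hP hloc).gn n)⁻¹ *
      ((mach G S P hP hloc).gn n * (mach G S P hP hloc).h)) ^ k ≠ 1 := by
  have e0 : (mach G S P hP hloc).h.n = 0 := rfl
  refine pow_ne ?_ ?_ ?_ k hk
  · rw [Wr.mul_n, gn_n, e0, add_zero]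
  · rw [Wr.mul_n, gn_n, e0, add_zero]
  · intro h1
    simp only [Wr.mul_k] at h1
    rw [gn_k, gn_n, gn_k] at h1
    change ((gg G S).k (0 - n) * (hh G).k (0 - 0)).2 =
      ((hh G).k 0 * (gg G S).k (0 - 0 - n)).2 at h1
    rw [sub_zero, gg_k_not_mem hn] at h1
    change pp * (if (0 : ℤ) = 0 then (Wr.t : Wr (Multiplicative ℤ)) else 1) =
      (if (0 : ℤ) = 0 then (Wr.t : Wr (Multiplicative ℤ)) else 1) * pp at h1
    rw [if_pos rfl] at h1
    exact pp_t h1

/-- a pencil over `R` with the jumps `S`, and of the geometric size `β α ^ k` at `k ∈ S` -/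
def Pen (R : Subring ℂ) (H : Type) [Group H] (S : Set ℕ) (β α : ℝ) : Prop :=
  ∃ (κ μ : Type) (_ : Fintype κ) (_ : Fintype μ) (P0 P1 : GMat κ μ H) (c : ℝ),
    Coef R P0 ∧ Coef R P1 ∧ ∀ z : ℂ,
      (∀ k ∈ S, (k : ℂ) = z → vdim (kerA (BC.pen P0 P1 z)) = c + β * α ^ k) ∧
      ((¬ ∃ k ∈ S, (k : ℂ) = z) → vdim (kerA (BC.pen P0 P1 z)) = c)

/-- **Pencils with a prescribed set of jumps.** -/
theorem pencil_S {R : Subring ℂ} (hR : ∀ c ∈ R, conj c ∈ R) {G : Type} [Group G]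
    {ι κ : Type} [Fintype ι] [Fintype κ] (A : GMat κ ι G) (T : GMat Unit ι G) (hA : Coef R A)
    (hT : Coef R T) (h : kerA A ⊓ kerA T = ⊥) (h1 : vdim (kerA A) < 1) (S : Set ℕ) :
    Pen R (Hg G) S ((1 - vdim (kerA A)) ^ 2) (vdim (kerA A)) := by
  set A2 := BC.push (inc G) A with hA2
  set T2 := BC.push (inc G) T with hT2
  have hv : vdim (kerA A2) = vdim (kerA A) := vdim_push (inc G) inc_inj A
  have hbot : kerA A2 ⊓ kerA T2 = ⊥ := by
    rw [hA2, hT2, ← kerA_stack, ← push_stack]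
    apply eq_bot_of_vdim (isClosed_kerA _) (linv_kerA _)
    rw [vdim_push (inc G) inc_inj, kerA_stack, h, vdim_bot]
  have hsupp : ∀ (a : G →₀ ℂ), ∀ x ∈ (a.mapDomain (inc G)).support, x ∈ DIg G {0} := by
    classical
    intro a x hx
    have := Finsupp.mapDomain_support hx
    rw [Finset.mem_image] at this
    obtain ⟨y, _, rfl⟩ := this
    exact inc_mem y
  have hloc : Loc (DIg G {0}) (lampP A2 T2) :=
    loc_lampP _ (fun k i x hx => hsupp _ x hx) (fun k i x hx => hsupp _ x hx)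
  set M := mach G S (lampP A2 T2) (closed_lampP A2 T2) hloc with hM
  have hα : M.α = vdim (kerA A) := by
    rw [← hv]
    exact vdim_lampP A2 T2 hbot
  have hc1 := coef_push (inc G) A hA
  have hc2 := coef_push (inc G) T hT
  have d1 : Dfn R M.P 0 := dfn_lampP hc1 hc2 hbot
  have d2 : Dfn R M.Pᗮ (Fintype.card κ - Fintype.card ι + vdim (kerA A2)) :=
    dfn_lampP_orth hR hc1 hc2
  obtain ⟨κ', μ, _, _, P0, P1, c0, c1, hP⟩ := (dfn_Cb M d1 d2).pencil
  refine ⟨κ', μ, inferInstance, inferInstance, P0, P1,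
    6 * ((Fintype.card κ : ℝ) - Fintype.card ι + vdim (kerA A2)), c0, c1, fun z => ?_⟩
  obtain ⟨h3, h4⟩ := vdim_Cb M (by rw [hα]; exact h1) S
    (fun n hn => mach_good S _ (closed_lampP A2 T2) hloc n hn)
    (fun n hn k hk => mach_bad' S _ (closed_lampP A2 T2) hloc n hn k hk) z
  constructor
  · intro k hk hkz
    rw [hP, h3 k hk hkz, hα, add_comm]
  · intro hno
    rw [hP, h4 hno, zero_add]

theorem Pen.push {R : Subring ℂ} {H H' : Type} [Group H] [Group H'] {S : Set ℕ} {β α : ℝ}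
    (f : H →* H') (hf : Function.Injective f) (h : Pen R H S β α) : Pen R H' S β α := by
  obtain ⟨κ, μ, _, _, P0, P1, c, h0, h1, hz⟩ := h
  refine ⟨κ, μ, inferInstance, inferInstance, BC.push f P0, BC.push f P1, c,
    coef_push f P0 h0, coef_push f P1 h1, fun z => ?_⟩
  have e : BC.pen (BC.push f P0) (BC.push f P1) z = BC.push f (BC.pen P0 P1 z) := by
    funext k i
    show (P0 k i).mapDomain f + z • (P1 k i).mapDomain f = (P0 k i + z • P1 k i).mapDomain f
    rw [Finsupp.mapDomain_add, Finsupp.mapDomain_smul]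
  rw [e, vdim_push f hf]
  exact hz z

/-- restriction to a finitely generated subgroup -/
theorem Pen.fg {R : Subring ℂ} {H : Type} [Group H] {S : Set ℕ} {β α : ℝ}
    (h : Pen R H S β α) : ∃ K : Subgroup H, Group.FG K ∧ Pen R K S β α := by
  classical
  obtain ⟨κ, μ, _, _, P0, P1, c, h0, h1, hz⟩ := h
  set s : Finset H := Finset.univ.biUnion fun k : κ =>
    Finset.univ.biUnion fun i : μ => (P0 k i).support ∪ (P1 k i).support with hs
  set K := Subgroup.closure (s : Set H) with hK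
  have hsub : ∀ k i x, x ∈ (P0 k i).support ∪ (P1 k i).support → x ∈ K := by
    intro k i x hx
    apply Subgroup.subset_closure
    rw [hs, Finset.mem_coe, Finset.mem_biUnion]
    refine ⟨k, Finset.mem_univ _, ?_⟩
    rw [Finset.mem_biUnion]
    exact ⟨i, Finset.mem_univ _, hx⟩
  let co : GMat κ μ H → GMat κ μ K := fun A k i =>
    (A k i).comapDomain (Subtype.val : K → H) Subtype.val_injective.injOn
  have hp : ∀ A : GMat κ μ H, (∀ k i x, x ∈ (A k i).support → x ∈ K) →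
      BC.push (K.subtype : K → H) (co A) = A := by
    intro A hA
    funext k i
    show Finsupp.mapDomain (Subtype.val : K → H)
      ((A k i).comapDomain (Subtype.val : K → H) Subtype.val_injective.injOn) = A k i
    apply Finsupp.mapDomain_comapDomain _ Subtype.val_injective
    intro x hx
    exact ⟨⟨x, hA k i x hx⟩, rfl⟩
  have hp0 := hp P0 (fun k i x hx => hsub k i x (Finset.mem_union_left _ hx))
  have hp1 := hp P1 (fun k i x hx => hsub k i x (Finset.mem_union_right _ hx))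
  refine ⟨K, Group.closure_finset_fg s, κ, μ, inferInstance, inferInstance, co P0, co P1, c,
    fun k i h => h0 k i h, fun k i h => h1 k i h, fun z => ?_⟩
  have e : BC.push (K.subtype : K → H) (BC.pen (co P0) (co P1) z) = BC.pen P0 P1 z := by
    funext k i
    show ((co P0 k i) + z • (co P1 k i)).mapDomain (K.subtype : K → H) = P0 k i + z • P1 k i
    rw [Finsupp.mapDomain_add, Finsupp.mapDomain_smul]
    have k0 : (co P0 k i).mapDomain (K.subtype : K → H) = P0 k i := congrFun (congrFun hp0 k) i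
    have k1 : (co P1 k i).mapDomain (K.subtype : K → H) = P1 k i := congrFun (congrFun hp1 k) i
    rw [k0, k1]
  have e2 := vdim_push K.subtype K.subtype_injective (BC.pen (co P0) (co P1) z)
  rw [e] at e2
  rw [← e2]
  exact hz z

/-- a pencil over the integers in the format of the problem -/
theorem to_matrix' {H : Type} [Group H] {κ μ : Type} [Fintype κ] [Fintype μ] (P0 P1 : GMat κ μ H)
    (h0 : Coef (⊥ : Subring ℂ) P0) (h1 : Coef (⊥ : Subring ℂ) P1) :
    ∃ (m n : ℕ) (A B : Matrix (Fin m) (Fin n) (H →₀ ℤ)), ∀ z : ℂ,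
      kerDim (cx A + z • cx B) = vdim (kerA (BC.pen P0 P1 z)) := by
  classical
  let e : Fin (Fintype.card κ) ≃ κ := (Fintype.equivFin κ).symm
  let f : Fin (Fintype.card μ) ≃ μ := (Fintype.equivFin μ).symm
  refine ⟨Fintype.card μ, Fintype.card κ,
    fun i j => zx ((P0 (e j) (f i)).mapDomain (fun g => g⁻¹)),
    fun i j => zx ((P1 (e j) (f i)).mapDomain (fun g => g⁻¹)), fun z => ?_⟩
  rw [kerDim_eq, ← vdim_ri e f]
  congr 2
  funext j i
  show (Finsupp.mapRange (fun c : ℤ => (c : ℂ)) Int.cast_zero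
    (zx ((P0 (e j) (f i)).mapDomain (fun g => g⁻¹))) +
      z • Finsupp.mapRange (fun c : ℤ => (c : ℂ)) Int.cast_zero
        (zx ((P1 (e j) (f i)).mapDomain (fun g => g⁻¹)))).mapDomain (fun g => g⁻¹)
      = P0 (e j) (f i) + z • P1 (e j) (f i)
  have e1 : ∀ a : H →₀ ℂ, (∀ x, a x ∈ (⊥ : Subring ℂ)) →
      Finsupp.mapRange (fun c : ℤ => (c : ℂ)) Int.cast_zero (zx a) = a := by
    intro a ha
    ext x
    rw [Finsupp.mapRange_apply]
    exact zx_cast a ha x
  rw [e1 _ (fun y => coef_mapDomain _ _ (h0 _ _) y),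
    e1 _ (fun y => coef_mapDomain _ _ (h1 _ _) y), Finsupp.mapDomain_add,
    Finsupp.mapDomain_smul, mapDomain_inv_inv, mapDomain_inv_inv]

theorem Pen.matrix {H : Type} [Group H] {S : Set ℕ} {β α : ℝ}
    (h : Pen (⊥ : Subring ℂ) H S β α) :
    ∃ (m n : ℕ) (A B : Matrix (Fin m) (Fin n) (H →₀ ℤ)) (c : ℝ), ∀ z : ℂ,
      (∀ k ∈ S, (k : ℂ) = z → kerDim (cx A + z • cx B) = c + β * α ^ k) ∧
      ((¬ ∃ k ∈ S, (k : ℂ) = z) → kerDim (cx A + z • cx B) = c) := by
  obtain ⟨κ, μ, _, _, P0, P1, c, h0, h1, hz⟩ := h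
  obtain ⟨m, n, A, B, hAB⟩ := to_matrix' P0 P1 h0 h1
  refine ⟨m, n, A, B, c, fun z => ?_⟩
  rw [hAB]
  exact hz z

/-- the jumps of a pencil -/
def jmp {G : Type} [Group G] {m n : ℕ} (A B : Matrix (Fin m) (Fin n) (G →₀ ℂ)) : Set ℂ :=
  {z | ∃ w : ℂ, kerDim (A + w • B) < kerDim (A + z • B)}

theorem Pen.jumps {H : Type} [Group H] {S : Set ℕ} {β α : ℝ} (hβ : 0 < β) (hα : 0 < α)
    (h : Pen (⊥ : Subring ℂ) H S β α) :
    ∃ (m n : ℕ) (A B : Matrix (Fin m) (Fin n) (H →₀ ℤ)),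
      jmp (cx A) (cx B) = (fun k : ℕ => (k : ℂ)) '' S := by
  obtain ⟨m, n, A, B, c, hz⟩ := h.matrix
  refine ⟨m, n, A, B, ?_⟩
  have hlow : ∀ z : ℂ, c ≤ kerDim (cx A + z • cx B) := by
    intro z
    by_cases hk : ∃ k ∈ S, (k : ℂ) = z
    · obtain ⟨k, hk, hkz⟩ := hk
      rw [(hz z).1 k hk hkz]
      have : 0 < β * α ^ k := by positivity
      linarith
    · rw [(hz z).2 hk]
  ext z
  constructor
  · rintro ⟨w, hw⟩
    by_contra hno
    have h1 : ¬ ∃ k ∈ S, (k : ℂ) = z := hno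
    rw [(hz z).2 h1] at hw
    linarith [hlow w]
  · rintro ⟨k, hk, hkz⟩
    refine ⟨-1, ?_⟩
    have hm : ¬ ∃ k ∈ S, (k : ℂ) = -1 := by
      rintro ⟨l, _, hl⟩
      have h3 := congrArg Complex.re hl
      rw [Complex.natCast_re, Complex.neg_re, Complex.one_re] at h3
      have h4 : (0 : ℝ) ≤ l := Nat.cast_nonneg l
      linarith
    show kerDim (cx A + (-1 : ℂ) • cx B) < kerDim (cx A + z • cx B)
    rw [(hz (-1)).2 hm, (hz z).1 k hk hkz]
    have : 0 < β * α ^ k := by positivity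
    linarith

/-- **The main construction.** -/
theorem main_S {C : (G : Type) → [Group G] → Prop} (hC : Cl C) {G : Type} [Group G] (hG : C G)
    {v : ℝ} (hv : Val (⊥ : Subring ℂ) G v) (hz : ¬ ∃ z : ℤ, v = z) :
    ∃ (H : Type) (_ : Group H), C H ∧ ∃ β α : ℝ, 0 < β ∧ 0 < α ∧ α < 1 ∧
      ∀ S : Set ℕ, Pen (⊥ : Subring ℂ) H S β α := by
  have hv0 := val_nonneg hv
  have hf1 : ((⌊v⌋₊ : ℕ) : ℝ) < v := by
    refine lt_of_le_of_ne (Nat.floor_le hv0) ?_
    intro h
    exact hz ⟨(⌊v⌋₊ : ℕ), by rw [← h]; simp⟩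
  have hf2 : v < (⌊v⌋₊ : ℝ) + 1 := Nat.lt_floor_add_one v
  obtain ⟨m, hρ⟩ := val_cut hv ⌊v⌋₊ hf1
  set ρ := v - (⌊v⌋₊ : ℝ) with hρd
  have h0 : 0 < ρ := by linarith
  have h1 : ρ < 1 := by linarith
  obtain ⟨m', ι, κ, _, _, A, T, hA, hT, hAT, hvA⟩ := lamp_exists hρ h1
  refine ⟨_, inferInstance, hC.hg (hC.free _ m' (hC.free _ m hG)), (1 - ρ) ^ 2, ρ, ?_, h0, h1,
    fun S => ?_⟩
  · have : 0 < 1 - ρ := by linarith
    positivity
  · have h3 := pencil_S conj_bot A T hA hT hAT (by rw [hvA]; exact h1) S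
    rw [hvA] at h3
    exact h3

/-! ### the number of jumps -/

/-- the pencil as a family of matrices with polynomial coefficients -/
noncomputable def pol {G : Type} {m n : ℕ} (A B : Matrix (Fin m) (Fin n) (G →₀ ℂ)) :
    Matrix (Fin m) (Fin n) (G →₀ Polynomial ℂ) :=
  fun i j => (A i j).mapRange Polynomial.C (map_zero _) +
    (B i j).mapRange (fun c => Polynomial.X * Polynomial.C c) (by simp)

theorem pol_apply {G : Type} {m n : ℕ} (A B : Matrix (Fin m) (Fin n) (G →₀ ℂ)) (i : Fin m)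
    (j : Fin n) (g : G) : pol A B i j g =
      Polynomial.C (A i j g) + Polynomial.X * Polynomial.C (B i j g) := by
  unfold pol
  rw [Finsupp.add_apply, Finsupp.mapRange_apply, Finsupp.mapRange_apply]

theorem mapR_pol {G : Type} [Group G] {m n : ℕ} (A B : Matrix (Fin m) (Fin n) (G →₀ ℂ)) (z : ℂ) :
    Q23.AS.mapR (fun p : Polynomial ℂ => p.eval z) Polynomial.eval_zero (pol A B)
      = A + z • B := by
  funext i j
  ext g
  show Polynomial.eval z (pol A B i j g) = A i j g + z • B i j g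
  rw [pol_apply, smul_eq_mul, mul_comm z]
  simp

theorem jumps_le {G : Type} [Group G] {m n : ℕ} (A B : Matrix (Fin m) (Fin n) (G →₀ ℂ))
    (hint : ∀ z : ℂ, ∃ k : ℤ, kerDim (A + z • B) = k) (s : Finset ℂ)
    (hs : ∀ z ∈ s, ∃ w : ℂ, kerDim (A + w • B) < kerDim (A + z • B)) : s.card ≤ m := by
  classical
  have hnat : ∀ z : ℂ, ∃ k : ℕ, kerDim (A + z • B) = k := by
    intro z
    obtain ⟨k, hk⟩ := hint z
    have h0 := (kerDim_bounds (A + z • B)).1
    rw [hk] at h0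
    have h1 : 0 ≤ k := by exact_mod_cast h0
    obtain ⟨l, rfl⟩ := Int.eq_ofNat_of_zero_le h1
    exact ⟨l, by rw [hk]; simp⟩
  choose f hf using hnat
  obtain ⟨w0, hw0⟩ : ∃ w0, ∀ z, f w0 ≤ f z := by
    have hne : (Set.range f).Nonempty := ⟨f 0, 0, rfl⟩
    obtain ⟨w0, hw0⟩ := Nat.sInf_mem hne
    exact ⟨w0, fun z => by rw [hw0]; exact Nat.sInf_le ⟨z, rfl⟩⟩
  have hlt : ∀ z ∈ s, f w0 + 1 ≤ f z := by
    intro z hz
    obtain ⟨w, hw⟩ := hs z hz
    rw [hf, hf] at hw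
    have h1 : f w < f z := by exact_mod_cast hw
    exact lt_of_le_of_lt (hw0 w) h1
  have hws : w0 ∉ s := fun h => by
    have := hlt w0 h
    omega
  have hinf : ((insert w0 s : Finset ℂ) : Set ℂ)ᶜ.Infinite :=
    (Finset.finite_toSet _).infinite_compl
  obtain ⟨w', hw'⟩ := hinf.nonempty
  rw [Set.mem_compl_iff, Finset.mem_coe, Finset.mem_insert, not_or] at hw'
  have h3 := Q23.AS.one_parameter (pol A B) s {w'} (by
    intro i j g
    rw [pol_apply, Finset.card_singleton]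
    refine (Polynomial.natDegree_add_le _ _).trans ?_
    rw [Polynomial.natDegree_C]
    refine max_le (Nat.zero_le _) ?_
    refine Polynomial.natDegree_mul_le.trans ?_
    rw [Polynomial.natDegree_C, Polynomial.natDegree_X]) w0 hws
    (by rw [Finset.mem_singleton]; exact fun h => hw'.1 h.symm)
    (Finset.disjoint_singleton_left.2 hw'.2)
  rw [Finset.sum_singleton, Finset.card_singleton] at h3
  simp only [mapR_pol, hf] at h3
  have h4 : (s.card : ℝ) ≤ ∑ z ∈ s, ((f z : ℝ) - f w0) := by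
    rw [← nsmul_one, ← Finset.sum_const]
    refine Finset.sum_le_sum fun z hz => ?_
    have h5 : ((f w0 + 1 : ℕ) : ℝ) ≤ f z := by exact_mod_cast hlt z hz
    push_cast at h5
    linarith
  have h5 : (0 : ℝ) ≤ f w' := Nat.cast_nonneg _
  have h6 : (s.card : ℝ) ≤ m := by push_cast at h3; linarith
  exact_mod_cast h6

end Q23.JS
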