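import Pool.Agent.Q5.AZ.R6
import Pool.Agent.Q23.JS.J2

/-!
Pencils of single elements: tensor products, generic columns and generic rows, applied to a pencil
of matrices.
-/

set_option autoImplicit false
set_option linter.unusedSectionVars false

open scoped InnerProductSpace ENNReal ComplexConjugate
open Filter Topology

namespace Q23.JS

open Pool.Agent.W656.VA
open Pool.Agent.H80R2
open Pool.Agent.H80R2.BC (L2 GMat vdim IsTr LInv Equi act kerA Coef Generic)
open Pool.Agent.H812R3
open Pool.Agent.TH25.AD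
open Q23.FV
open Pool.Agent.Q5.AZ (em dg col pm op_pm vdim_col coef_col dg_mem dg_mem_orth vdim_comap
  vdim_inter coef_dg op_dg_sum EVal EE)

variable {ι κ ι' κ' G G' H : Type} [Group G] [Group G'] [Group H] [Fintype ι] [Fintype κ]
  [Fintype ι'] [Fintype κ'] {R : Subring ℂ}

theorem kerA_op {A B : GMat κ ι G} (h : ∀ x, op A x = op B x) : kerA A = kerA B := by
  ext x
  rw [kerA_eq, kerA_eq, mem_kr, mem_kr, h]

theorem push_pen (f : G → G') (P0 P1 : GMat κ ι G) (z : ℂ) :
    BC.pen (BC.push f P0) (BC.push f P1) z = BC.push f (BC.pen P0 P1 z) := by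
  funext k i
  show (P0 k i).mapDomain f + z • (P1 k i).mapDomain f = (P0 k i + z • P1 k i).mapDomain f
  rw [Finsupp.mapDomain_add, Finsupp.mapDomain_smul]

theorem kerA_pen_right (P0 P1 : GMat κ ι' G) (X : GMat ι' ι G) (z : ℂ) :
    kerA (BC.pen (mulM P0 X) (mulM P1 X) z) = kerA (mulM (BC.pen P0 P1 z) X) :=
  kerA_op fun x => by rw [op_pen, op_mulM, op_mulM, op_mulM, op_pen]

theorem kerA_pen_left (P0 P1 : GMat κ ι G) (X : GMat κ' κ G) (z : ℂ) :
    kerA (BC.pen (mulM X P0) (mulM X P1) z) = kerA (mulM X (BC.pen P0 P1 z)) :=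
  kerA_op fun x => by rw [op_pen, op_mulM, op_mulM, op_mulM, op_pen, map_add, map_smul]

/-! ### tensor products -/

theorem vdim_tensor [DecidableEq ι] (A : GMat κ ι G) (a : G' →₀ ℂ) :
    (Fintype.card ι : ℝ) - vdim (kerA (mulM (BC.push (MonoidHom.inl G G') A)
      (dg ι (a.mapDomain (MonoidHom.inr G G'))))) =
      (Fintype.card ι - vdim (kerA A)) * (1 - vdim (kerA (em a))) := by
  set inc : G →* G × G' := MonoidHom.inl G G' with hinc
  have hinj : Function.Injective inc := fun x y hxy => congrArg Prod.fst hxy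
  set X : GMat ι ι (G × G') := dg ι (a.mapDomain (MonoidHom.inr G G')) with hX
  set M := kerA (BC.push inc A) with hM
  have hcomm : ∀ l ∈ (a.mapDomain (MonoidHom.inr G G')).support, ∀ g, l * inc g = inc g * l := by
    classical
    intro l hl g
    have := Finsupp.mapDomain_support hl
    rw [Finset.mem_image] at this
    obtain ⟨y, _, rfl⟩ := this
    simp [hinc]
  have h2 : ∀ x ∈ M, op X x ∈ M := by
    intro x hx
    rw [hX, op_dg_sum]
    exact M.sum_mem fun l hl => M.smul_mem _ (dg_mem inc hinj A l (hcomm l hl) hx)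
  have h3 : ∀ x ∈ Mᗮ, op X x ∈ Mᗮ := by
    intro x hx
    rw [hX, op_dg_sum]
    exact Mᗮ.sum_mem fun l hl => Mᗮ.smul_mem _ (dg_mem_orth inc hinj A l (hcomm l hl) hx)
  have h4 := vdim_comap (isClosed_kerA _) (linv_kerA _) (op X) (equi_op X) h2 h3
  have e1 : kerA (mulM (BC.push inc A) X) =
      M.comap (op X : L2 (ι × (G × G')) →ₗ[ℂ] L2 (ι × (G × G'))) := by
    ext x
    rw [kerA_eq, mem_kr, op_mulM, hM, kerA_eq]
    exact (mem_kr _ _).symm
  have e2 : vdim (M ⊓ kr (op X)) = vdim (kerA A) * vdim (kerA (em a)) := by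
    rw [← kerA_eq]
    exact vdim_inter A a
  have e3 : vdim (kr (op X)) = Fintype.card ι * vdim (kerA (em a)) := by
    have h5 := vdim_inter (fun k _ => k.elim : GMat Empty ι G) a
    have h6 : kerA (BC.push (MonoidHom.inl G G') (fun k _ => k.elim : GMat Empty ι G)) = ⊤ := by
      rw [eq_top_iff]
      intro x _
      rw [mem_kerA]
      intro k
      exact k.elim
    have h7 : kerA (fun k _ => k.elim : GMat Empty ι G) = ⊤ := by
      rw [eq_top_iff]
      intro x _
      rw [mem_kerA]
      intro k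
      exact k.elim
    rw [h6, h7, top_inf_eq, vdim_top] at h5
    rw [← kerA_eq]
    exact h5
  have e4 : vdim M = vdim (kerA A) := vdim_push inc hinj A
  rw [e1, h4, e2, e3, e4]
  ring

/-! ### generic rows -/

theorem conj_sum_mapDomain (f : G →* G') (a : G →₀ ℂ) :
    ((a.mapDomain f).sum fun h c => Finsupp.single h⁻¹ (conj c)) =
      (a.sum fun h c => Finsupp.single h⁻¹ (conj c)).mapDomain f := by
  rw [Finsupp.sum_mapDomain_index (by intro b; simp) (by intro b m₁ m₂; simp),
    Finsupp.mapDomain_sum]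
  refine Finsupp.sum_congr fun h _ => ?_
  rw [Finsupp.mapDomain_single, map_inv]

theorem st_push (f : G →* G') (A : GMat κ ι G) : st (BC.push f A) = BC.push f (st A) := by
  funext i k
  exact conj_sum_mapDomain f (A k i)

theorem vdim_st (A : GMat κ ι G) :
    vdim (kerA (st A)) = Fintype.card κ - Fintype.card ι + vdim (kerA A) := by
  have h := vdim_ker_adjoint (op A) (equi_op A)
  rw [← op_st, ← kerA_eq, ← kerA_eq] at h
  linarith

/-- **The row lemma.** -/
theorem vdim_row [DecidableEq κ] (inc : G →* G') (hinc : Function.Injective inc) (w : κ → G')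
    (hw : Generic inc (fun p (_ : Unit) => w p)) (B : GMat κ Unit G) (p0 : κ)
    (h : 0 < vdim (kerA B)) :
    vdim (kerA (mulM (st (pm w)) (BC.push inc B))) = vdim (kerA B) := by
  set X : GMat Unit Unit G' := mulM (st (pm w)) (BC.push inc B) with hX
  have e1 : kerA (st X) = kerA (col inc w (st B)) := by
    apply kerA_op
    intro x
    rw [op_st, col, op_mulM, ← st_push, op_st]
    have e2 : op X = (ContinuousLinearMap.adjoint (op (pm w))).comp (op (BC.push inc B)) := by
      ext1 y
      rw [hX, op_mulM, op_st]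
      rfl
    rw [e2, ContinuousLinearMap.adjoint_comp, ContinuousLinearMap.adjoint_adjoint]
    rfl
  have h1 := vdim_st X
  have h2 := vdim_st B
  rw [e1] at h1
  rw [Fintype.card_unit, Nat.cast_one] at h1 h2
  rw [vdim_col inc hinc w hw (st B) p0 (by rw [h2]; linarith), h2] at h1
  linarith

theorem em_pen (a0 a1 : G →₀ ℂ) (z : ℂ) : BC.pen (em a0) (em a1) z = em (a0 + z • a1) := rfl

/-- **From a pencil of matrices to a pencil of elements.** -/
theorem to_element (P0 P1 : GMat κ ι H) (h0 : Coef R P0) (h1 : Coef R P1)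
    (hR : ∀ c ∈ R, conj c ∈ R) (a : G' →₀ ℂ) (ha : ∀ g, a g ∈ R) (i0 : ι) (k0 : κ)
    (hε : Fintype.card ι * (1 - vdim (kerA (em a))) < 1) :
    ∃ (m n : ℕ) (a0 a1 : Monoid.Coprod (Monoid.Coprod (H × G') (FreeGroup (Fin m)))
        (FreeGroup (Fin n)) →₀ ℂ), (∀ g, a0 g ∈ R) ∧ (∀ g, a1 g ∈ R) ∧
      ∀ z : ℂ, vdim (kerA (em (a0 + z • a1))) =
        1 - (Fintype.card ι - vdim (kerA (BC.pen P0 P1 z))) * (1 - vdim (kerA (em a))) := by
  classical
  -- tensor product
  set inc0 : H →* H × G' := MonoidHom.inl H G' with hinc0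
  set X : GMat ι ι (H × G') := dg ι (a.mapDomain (MonoidHom.inr H G')) with hX
  have hXc : Coef R X := coef_dg (coef_mapDomain _ _ ha)
  set Q0 := mulM (BC.push inc0 P0) X with hQ0
  set Q1 := mulM (BC.push inc0 P1) X with hQ1
  have hQ0c : Coef R Q0 := coef_mulM (coef_push _ _ h0) hXc
  have hQ1c : Coef R Q1 := coef_mulM (coef_push _ _ h1) hXc
  have hv1 : vdim (kerA (em a)) ≤ 1 := by
    have := vdim_le_card (kerA (em a))
    simpa using this
  have hQ : ∀ z : ℂ, (Fintype.card ι : ℝ) - vdim (kerA (BC.pen Q0 Q1 z)) =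
      (Fintype.card ι - vdim (kerA (BC.pen P0 P1 z))) * (1 - vdim (kerA (em a))) := by
    intro z
    rw [hQ0, hQ1, kerA_pen_right, push_pen]
    exact vdim_tensor (BC.pen P0 P1 z) a
  -- generic column
  set m := Fintype.card (ι × Unit) with hm
  set e : ι × Unit ≃ Fin m := Fintype.equivFin _ with he
  set inc1 : H × G' →* Monoid.Coprod (H × G') (FreeGroup (Fin m)) := Monoid.Coprod.inl with hinc1
  have hinj1 : Function.Injective inc1 := Monoid.Coprod.inl_injective
  set v : ι → Monoid.Coprod (H × G') (FreeGroup (Fin m)) := fun p =>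
    (Monoid.Coprod.inr : FreeGroup (Fin m) →* Monoid.Coprod (H × G') (FreeGroup (Fin m)))
        (FreeGroup.of (e (p, ()))) with hv
  have hgen1 : Generic inc1 (fun p (_ : Unit) => v p) := BC.generic_coprod (H × G') m e
  set C0 := col inc1 v Q0 with hC0
  set C1 := col inc1 v Q1 with hC1
  have hC0c : Coef R C0 := coef_col inc1 v hQ0c
  have hC1c : Coef R C1 := coef_col inc1 v hQ1c
  have hC : ∀ z : ℂ, vdim (kerA (BC.pen C0 C1 z)) =
      1 - (Fintype.card ι - vdim (kerA (BC.pen P0 P1 z))) * (1 - vdim (kerA (em a))) ∧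
      0 < vdim (kerA (BC.pen C0 C1 z)) := by
    intro z
    have e1 : kerA (BC.pen C0 C1 z) = kerA (col inc1 v (BC.pen Q0 Q1 z)) := by
      rw [hC0, hC1]
      unfold col
      rw [kerA_pen_right, push_pen]
    have hP1 := vdim_nonneg (kerA (BC.pen P0 P1 z))
    have h2 := hQ z
    have h3 : ((Fintype.card ι : ℝ) - vdim (kerA (BC.pen P0 P1 z))) *
        (1 - vdim (kerA (em a))) < 1 := by
      refine lt_of_le_of_lt (mul_le_mul_of_nonneg_right ?_ (by linarith)) hε
      linarith
    have h4 := vdim_col inc1 hinj1 v hgen1 (BC.pen Q0 Q1 z) i0 (by linarith)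
    rw [e1, h4]
    constructor
    · linarith
    · linarith
  -- generic row
  set n := Fintype.card (κ × Unit) with hn
  set e' : κ × Unit ≃ Fin n := Fintype.equivFin _ with he'
  set inc2 : Monoid.Coprod (H × G') (FreeGroup (Fin m)) →*
    Monoid.Coprod (Monoid.Coprod (H × G') (FreeGroup (Fin m))) (FreeGroup (Fin n)) :=
      Monoid.Coprod.inl with hinc2
  have hinj2 : Function.Injective inc2 := Monoid.Coprod.inl_injective
  set w : κ → Monoid.Coprod (Monoid.Coprod (H × G') (FreeGroup (Fin m))) (FreeGroup (Fin n)) :=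
    fun p => (Monoid.Coprod.inr : FreeGroup (Fin n) →*
      Monoid.Coprod (Monoid.Coprod (H × G') (FreeGroup (Fin m))) (FreeGroup (Fin n)))
        (FreeGroup.of (e' (p, ()))) with hw
  have hgen2 : Generic inc2 (fun p (_ : Unit) => w p) := BC.generic_coprod _ n e'
  set X0 := mulM (st (pm w)) (BC.push inc2 C0) with hX0
  set X1 := mulM (st (pm w)) (BC.push inc2 C1) with hX1
  have hpm : Coef R (st (pm w)) := coef_st hR fun _ _ _ => coef_single _ _ R.one_mem _
  refine ⟨m, n, X0 () (), X1 () (), fun g => coef_mulM hpm (coef_push _ _ hC0c) () () g,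
    fun g => coef_mulM hpm (coef_push _ _ hC1c) () () g, fun z => ?_⟩
  have e3 : em (X0 () () + z • X1 () ()) = BC.pen X0 X1 z := by
    funext i j
    rfl
  rw [e3, hX0, hX1, kerA_pen_left, push_pen,
    vdim_row inc2 hinj2 w hgen2 (BC.pen C0 C1 z) k0 (hC z).2, (hC z).1]

end Q23.JS
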