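import Pool.Agent.Q23.JS.K1

/-!
Pencils of single elements with a prescribed set of jumps.
-/

set_option autoImplicit false
set_option linter.unusedSectionVars false

open scoped InnerProductSpace ENNReal ComplexConjugate
open Filter Topology

namespace Q23.JS

open Pool.Agent.W656.VA
open Pool.Agent.H80R2
open Pool.Agent.H80R2.BC (L2 GMat vdim IsTr LInv Equi act kerA Coef Generic)
open Pool.Agent.H812R3
open Pool.Agent.TH25.AD
open Q23.FV
open Pool.Agent.Q5.AZ (em dg col pm EVal EE kd_eq)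

variable {G G' H H' : Type} [Group G] [Group G'] [Group H] [Group H'] {R : Subring ℂ}
  {S : Set ℕ} {β α : ℝ}

/-- both index sets can be made nonempty -/
theorem Pen.pad (h : Pen R H S β α) :
    ∃ (κ μ : Type) (_ : Fintype κ) (_ : Fintype μ) (_ : κ) (_ : μ) (P0 P1 : GMat κ μ H) (c : ℝ),
    Coef R P0 ∧ Coef R P1 ∧ ∀ z : ℂ,
      (∀ k ∈ S, (k : ℂ) = z → vdim (kerA (BC.pen P0 P1 z)) = c + β * α ^ k) ∧
      ((¬ ∃ k ∈ S, (k : ℂ) = z) → vdim (kerA (BC.pen P0 P1 z)) = c) := by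
  obtain ⟨κ, μ, _, _, P0, P1, c, h0, h1, hz⟩ := h
  have hid : vdim (kerA (idM H)) = 0 := by
    have : kerA (idM H) = ⊥ := by
      rw [eq_bot_iff]
      intro x hx
      rw [kerA_eq, mem_kr, op_idM] at hx
      exact hx
    rw [this, vdim_bot]
  have e : ∀ z : ℂ, BC.pen (bd P0 (idM H)) (bd P1 (fun _ _ => 0 : GMat Unit Unit H)) z
      = bd (BC.pen P0 P1 z) (idM H) := by
    intro z
    funext k i
    rcases k with k | k <;> rcases i with i | i
    · rfl
    · show (0 : H →₀ ℂ) + z • (0 : H →₀ ℂ) = 0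
      rw [smul_zero, add_zero]
    · show (0 : H →₀ ℂ) + z • (0 : H →₀ ℂ) = 0
      rw [smul_zero, add_zero]
    · show idM H k i + z • (0 : H →₀ ℂ) = idM H k i
      rw [smul_zero, add_zero]
  refine ⟨κ ⊕ Unit, μ ⊕ Unit, inferInstance, inferInstance, Sum.inr (), Sum.inr (),
    bd P0 (idM H), bd P1 (fun _ _ => 0), c, coef_bd h0 ?_, coef_bd h1 ?_, fun z => ?_⟩
  · intro k i g
    exact coef_single _ _ R.one_mem _
  · intro k i g
    exact R.zero_mem
  · rw [e, vdim_bd, hid, add_zero]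
    exact hz z

/-- a pencil of single elements over `R` with the jumps `S`, and of the geometric size `β α ^ k`
at `k ∈ S` -/
def EPen (R : Subring ℂ) (H : Type) [Group H] (S : Set ℕ) (β α : ℝ) : Prop :=
  ∃ (a0 a1 : H →₀ ℂ) (c : ℝ), (∀ g, a0 g ∈ R) ∧ (∀ g, a1 g ∈ R) ∧ ∀ z : ℂ,
    (∀ k ∈ S, (k : ℂ) = z → vdim (kerA (em (a0 + z • a1))) = c + β * α ^ k) ∧
    ((¬ ∃ k ∈ S, (k : ℂ) = z) → vdim (kerA (em (a0 + z • a1))) = c)

theorem EPen.push (f : H →* H') (hf : Function.Injective f) (h : EPen R H S β α) :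
    EPen R H' S β α := by
  obtain ⟨a0, a1, c, h0, h1, hz⟩ := h
  refine ⟨a0.mapDomain f, a1.mapDomain f, c, coef_mapDomain _ _ h0, coef_mapDomain _ _ h1,
    fun z => ?_⟩
  have e : em (a0.mapDomain f + z • a1.mapDomain f) = BC.push f (em (a0 + z • a1)) := by
    funext i j
    show a0.mapDomain f + z • a1.mapDomain f = (a0 + z • a1).mapDomain f
    rw [Finsupp.mapDomain_add, Finsupp.mapDomain_smul]
  rw [e, vdim_push f hf]
  exact hz z

theorem EPen.mono {R' : Subring ℂ} (hR : R ≤ R') (h : EPen R H S β α) : EPen R' H S β α := by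
  obtain ⟨a0, a1, c, h0, h1, hz⟩ := h
  exact ⟨a0, a1, c, fun g => hR (h0 g), fun g => hR (h1 g), hz⟩

/-- restriction to a finitely generated subgroup -/
theorem EPen.fg (h : EPen R H S β α) : ∃ K : Subgroup H, Group.FG K ∧ EPen R K S β α := by
  classical
  obtain ⟨a0, a1, c, h0, h1, hz⟩ := h
  set s : Finset H := a0.support ∪ a1.support with hs
  set K := Subgroup.closure (s : Set H) with hK
  have hsub : ∀ x ∈ s, x ∈ K := fun x hx => Subgroup.subset_closure hx
  let co : (H →₀ ℂ) → (K →₀ ℂ) := fun a =>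
    a.comapDomain (Subtype.val : K → H) Subtype.val_injective.injOn
  have hp : ∀ a : H →₀ ℂ, a.support ⊆ s → (co a).mapDomain (Subtype.val : K → H) = a := by
    intro a ha
    apply Finsupp.mapDomain_comapDomain _ Subtype.val_injective
    intro x hx
    exact ⟨⟨x, hsub x (ha hx)⟩, rfl⟩
  have hp0 := hp a0 Finset.subset_union_left
  have hp1 := hp a1 Finset.subset_union_right
  refine ⟨K, Group.closure_finset_fg s, co a0, co a1, c, fun h => h0 h, fun h => h1 h,
    fun z => ?_⟩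
  have e : BC.push (K.subtype : K → H) (em (co a0 + z • co a1)) = em (a0 + z • a1) := by
    funext i j
    show (co a0 + z • co a1).mapDomain (Subtype.val : K → H) = a0 + z • a1
    rw [Finsupp.mapDomain_add, Finsupp.mapDomain_smul, hp0, hp1]
  have e2 := vdim_push K.subtype K.subtype_injective (em (co a0 + z • co a1))
  rw [e] at e2
  rw [← e2]
  exact hz z

/-- from a pencil of matrices to a pencil of elements, in a class of groups -/
theorem Pen.element {C : (G : Type) → [Group G] → Prop} (hC : Cl C)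
    (hR : ∀ c ∈ R, conj c ∈ R) (hH : C H) (hβ : 0 < β) (h : Pen R H S β α) {v : ℝ}
    (hv : EE C R v) (h0 : 0 < v) (h1 : v < 1) :
    ∃ (H' : Type) (_ : Group H'), C H' ∧ ∃ β' : ℝ, 0 < β' ∧ EPen R H' S β' α := by
  obtain ⟨κ, μ, _, _, k0, i0, P0, P1, c, hP0, hP1, hz⟩ := h.pad
  obtain ⟨n, hn⟩ := exists_pow_lt_of_lt_one
    (show (0 : ℝ) < 1 / ((Fintype.card μ : ℝ) + 1) by positivity)
    (show 1 - v < 1 by linarith)
  have hy0 : 0 < (1 - v) ^ (n + 1) := pow_pos (by linarith) _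
  have hy1 : (1 - v) ^ (n + 1) ≤ (1 - v) ^ n :=
    pow_le_pow_of_le_one (by linarith) (by linarith) (Nat.le_succ n)
  have hy2 : (1 - v) ^ (n + 1) < 1 := pow_lt_one₀ (by linarith) (by linarith) (by omega)
  obtain ⟨G', _, hG', a, ha, hav⟩ :=
    (Pool.Agent.Q5.AZ.RR.pow' hC.prod hv n).ee' hC.free hR hy0 hy2
  have e1 : 1 - vdim (kerA (em a)) = (1 - v) ^ (n + 1) := by rw [hav]; ring
  have hlt : (Fintype.card μ : ℝ) * (1 - vdim (kerA (em a))) < 1 := by
    rw [e1]
    have h2 : (1 - v) ^ (n + 1) < 1 / ((Fintype.card μ : ℝ) + 1) := lt_of_le_of_lt hy1 hn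
    rw [lt_div_iff₀ (by positivity)] at h2
    nlinarith
  obtain ⟨m, m', a0, a1, k1, k2, k3⟩ := to_element P0 P1 hP0 hP1 hR a ha i0 k0 hlt
  refine ⟨_, inferInstance, hC.free _ m' (hC.free _ m (hC.prod H G' hH hG')),
    (1 - v) ^ (n + 1) * β, by positivity, a0, a1,
    1 - (Fintype.card μ - c) * (1 - v) ^ (n + 1), k1, k2, fun z => ?_⟩
  rw [k3, e1]
  constructor
  · intro k hk hkz
    rw [(hz z).1 k hk hkz]
    ring
  · intro hno
    rw [(hz z).2 hno]

/-- **The main construction for single elements.** -/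
theorem main_E {C : (G : Type) → [Group G] → Prop} (hC : Cl C) {v : ℝ}
    (hv : EE C (⊥ : Subring ℂ) v) (h0 : 0 < v) (h1 : v < 1) (S : Set ℕ) :
    ∃ (H : Type) (_ : Group H), C H ∧ ∃ β α : ℝ, 0 < β ∧ 0 < α ∧ α < 1 ∧
      EPen (⊥ : Subring ℂ) H S β α := by
  obtain ⟨G, _, hG, a, ha, hav⟩ := id hv
  have hval : Val (⊥ : Subring ℂ) G v := by
    rw [← hav]
    exact val_of (em a) (fun _ _ g => ha g)
  obtain ⟨H, _, hH, β, α, hβ, hα, hα1, hP⟩ := main_S hC hG hval (by
    rintro ⟨z, rfl⟩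
    have h2 : (0 : ℤ) < z := by exact_mod_cast h0
    have h3 : z < 1 := by exact_mod_cast h1
    omega)
  obtain ⟨H', _, hH', β', hβ', hE⟩ := (hP S).element hC conj_bot hH hβ hv h0 h1
  exact ⟨H', inferInstance, hH', β', α, hβ', hα, hα1, hE⟩

/-- the jumps of a pencil of elements -/
def jmpE (a b : G →₀ ℂ) : Set ℂ :=
  {z | ∃ w : ℂ, Pool.Agent.TH57.AZ.kd (a + w • b) < Pool.Agent.TH57.AZ.kd (a + z • b)}

theorem EPen.jumps (hβ : 0 < β) (hα : 0 < α) (h : EPen R H S β α) :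
    ∃ a b : H →₀ ℂ, (∀ g, a g ∈ R) ∧ (∀ g, b g ∈ R) ∧
      jmpE a b = (fun k : ℕ => (k : ℂ)) '' S := by
  obtain ⟨a, b, c, ha, hb, hz⟩ := h
  refine ⟨a, b, ha, hb, ?_⟩
  simp only [← kd_eq] at hz
  have hlow : ∀ z : ℂ, c ≤ Pool.Agent.TH57.AZ.kd (a + z • b) := by
    intro z
    by_cases hk : ∃ k ∈ S, (k : ℂ) = z
    · obtain ⟨k, hk, hkz⟩ := hk
      rw [(hz z).1 k hk hkz]
      have : 0 < β * α ^ k := by positivity
      linarith
    · rw [(hz z).2 hk]
  ext z
  constructor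
  · rintro ⟨w, hw⟩
    by_contra hno
    have h1 : ¬ ∃ k ∈ S, (k : ℂ) = z := hno
    rw [(hz z).2 h1] at hw
    linarith [hlow w]
  · rintro ⟨k, hk, hkz⟩
    refine ⟨-1, ?_⟩
    have hm : ¬ ∃ k ∈ S, (k : ℂ) = -1 := by
      rintro ⟨l, _, hl⟩
      have h3 := congrArg Complex.re hl
      rw [Complex.natCast_re, Complex.neg_re, Complex.one_re] at h3
      have h4 : (0 : ℝ) ≤ l := Nat.cast_nonneg l
      linarith
    show Pool.Agent.TH57.AZ.kd (a + (-1 : ℂ) • b) < Pool.Agent.TH57.AZ.kd (a + z • b)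
    rw [(hz (-1)).2 hm, (hz z).1 k hk hkz]
    have : 0 < β * α ^ k := by positivity
    linarith

/-- infinitely many kernel dimensions of elements supported in one finite set -/
theorem EPen.values (hβ : 0 < β) (hα : 0 < α) (hα1 : α < 1) (h : EPen R H Set.univ β α) :
    ∃ T : Finset H, {r : ℝ | ∃ a : H →₀ ℂ, a.support ⊆ T ∧
      Pool.Agent.TH57.AZ.kd a = r}.Infinite := by
  classical
  obtain ⟨a, b, c, ha, hb, hz⟩ := h
  simp only [← kd_eq] at hz
  refine ⟨a.support ∪ b.support, ?_⟩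
  refine Set.infinite_of_injective_forall_mem (f := fun k : ℕ => c + β * α ^ k) ?_ ?_
  · intro k l hkl
    have h1 : β * α ^ k = β * α ^ l := add_left_cancel hkl
    have h2 : α ^ k = α ^ l := mul_left_cancel₀ hβ.ne' h1
    exact (pow_right_strictAnti₀ hα hα1).injective h2
  · intro k
    refine ⟨a + (k : ℂ) • b, ?_, (hz k).1 k (Set.mem_univ _) rfl⟩
    refine Finsupp.support_add.trans (Finset.union_subset_union_right ?_)
    exact Finsupp.support_smul

end Q23.JS
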